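import Pool.Agent.P8H15.EK.Stm
import Pool.Agent.N31.PF.Int

/-!
# Project EK, part CON: the conductor of `𝓞 F [θ]` is supported at the primes whose squares divide the discriminant
-/

set_option autoImplicit false
set_option linter.all false

open Polynomial NumberField IsDedekindDomain Matrix
open scoped Classical

namespace Pool.Agent.P8H59.EK

open Pool.Agent.N783.PF (IsGen Lat fF Bd dsc)
open Pool.Agent.P8H15.BR (el InR el_add el_smul)
open Pool.Agent.N61.PF (pol pol_natDegree pol_monic pol_coeff0 pol_coeff1 pol_coeff2 disc_ne)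
open Pool.Agent.N31.PF (minp pb dis theta_int)

section

variable {F L : Type} [Field F] [NumberField F] [Field L] [NumberField L] [Algebra F L]

theorem dsc_pol (a b : 𝓞 F) : dsc 1 (pol a b) = 4 * a ^ 3 + 27 * b ^ 2 := by
  have hd : (pol a b).natDegree = 3 := pol_natDegree a b
  have hd' : (pol a b).degree = 3 := by
    rw [degree_eq_natDegree (pol_monic a b).ne_zero, hd]; rfl
  have h := resultant_deriv (f := pol a b) (by rw [hd']; norm_num)
  rw [hd, discr_of_degree_eq_three hd'] at h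
  have h3 : (pol a b).coeff 3 = 1 := by
    have := (pol_monic a b).coeff_natDegree
    rwa [hd] at this
  rw [pol_coeff0, pol_coeff1, pol_coeff2, h3, (pol_monic a b).leadingCoeff] at h
  rw [dsc]
  norm_num at h
  rw [h]
  ring

theorem dsc_ne' {a b : 𝓞 F} {θ : L} (h : IsGen 1 (pol a b) θ) :
    (4 * a ^ 3 + 27 * b ^ 2 : 𝓞 F) ≠ 0 := by
  haveI := Pool.Agent.N31.PF.fin h
  have h1 : Irreducible (fF (pol a b)) := by
    rw [← minp h]
    exact minpoly.irreducible (pb h).isIntegral_gen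
  have h2 : fF (pol a b) = X ^ 3 + C ((a : 𝓞 F) : F) * X + C ((b : 𝓞 F) : F) := by
    unfold pol
    simp [fF]
  rw [h2] at h1
  have h3 := disc_ne h1
  intro h0
  apply h3
  have := congrArg (fun t : 𝓞 F => (t : F)) h0
  have e4 : algebraMap (𝓞 F) F 4 = 4 := map_ofNat _ 4
  have e27 : algebraMap (𝓞 F) F 27 = 27 := map_ofNat _ 27
  simpa [e4, e27] using this

/-- the coordinates of an integral element -/
theorem coord_int {a b : 𝓞 F} {θ : L} (h : IsGen 1 (pol a b) θ) (x : L) (hx : IsIntegral ℤ x)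
    (c : Fin (2 * 1 + 1) → F) (hc : x = ∑ i, algebraMap F L (c i) * θ ^ (i : ℕ))
    (i₀ : Fin (2 * 1 + 1)) : IsIntegral ℤ (c i₀ ^ 2 * ((4 * a ^ 3 + 27 * b ^ 2 : 𝓞 F) : F)) := by
  haveI := Pool.Agent.N31.PF.fin h
  have hθ := theta_int h
  have hne : dsc 1 (pol a b) ≠ 0 := by rw [dsc_pol]; exact dsc_ne' h
  obtain ⟨m, hm⟩ := dis h hne
  set P : Matrix (Fin (2 * 1 + 1)) (Fin (2 * 1 + 1)) F := (1 : Matrix _ _ F).updateCol i₀ c
    with hP
  have hdet : P.det = c i₀ := by
    rw [hP, ← cramer_apply, cramer_one]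
    rfl
  have h1 : IsIntegral ℤ (Algebra.discr F
      ((fun i : Fin (2 * 1 + 1) => θ ^ (i : ℕ)) ᵥ* P.map (algebraMap F L))) := by
    apply Algebra.discr_isIntegral
    intro j
    have e : ((fun i : Fin (2 * 1 + 1) => θ ^ (i : ℕ)) ᵥ* P.map (algebraMap F L)) j =
        if j = i₀ then x else θ ^ (j : ℕ) := by
      rw [Matrix.vecMul, dotProduct]
      simp only [Matrix.map_apply]
      split_ifs with hj
      · subst hj
        rw [hc]
        refine Finset.sum_congr rfl fun i _ => ?_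
        rw [hP, updateCol_self, mul_comm]
      · rw [Finset.sum_eq_single j]
        · rw [hP, updateCol_ne hj, one_apply_eq, map_one, mul_one]
        · intro i _ hij
          rw [hP, updateCol_ne hj, one_apply_ne hij, map_zero, mul_zero]
        · intro h0
          exact absurd (Finset.mem_univ _) h0
    rw [e]
    split_ifs
    · exact hx
    · exact hθ.pow _
  rw [Algebra.discr_of_matrix_vecMul, hdet, hm, dsc_pol] at h1
  have h2 : IsIntegral ℤ ((-1 : F) ^ m) := (isIntegral_one.neg).pow m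
  have h3 := h2.mul h1
  have e2 : (-1 : F) ^ m * (-1 : F) ^ m = 1 := by
    rw [← mul_pow, neg_one_mul, neg_neg, one_pow]
  have e : (-1 : F) ^ m * (c i₀ ^ 2 * ((-1) ^ m *
      algebraMap (𝓞 F) F (4 * a ^ 3 + 27 * b ^ 2))) =
      c i₀ ^ 2 * ((4 * a ^ 3 + 27 * b ^ 2 : 𝓞 F) : F) := by
    linear_combination (c i₀ ^ 2 * ((4 * a ^ 3 + 27 * b ^ 2 : 𝓞 F) : F)) * e2
  rwa [e] at h3

/-- integrality at one prime -/
theorem val_le {D : 𝓞 F} (v : HeightOneSpectrum (𝓞 F)) (hD : D ∉ v.asIdeal ^ 2) {t : F}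
    (h : IsIntegral ℤ (t ^ 2 * (D : F))) : v.valuation F t ≤ 1 := by
  by_contra hlt
  rw [not_le] at hlt
  have h1 : v.valuation F (t ^ 2 * (D : F)) ≤ 1 :=
    v.valuation_le_one (K := F) (⟨t ^ 2 * (D : F), h⟩ : 𝓞 F)
  have h2 : ¬ v.valuation F (D : F) ≤ WithZero.exp (-(2 : ℕ) : ℤ) := by
    intro h3
    apply hD
    have h4 : v.intValuation D ≤ WithZero.exp (-(2 : ℕ) : ℤ) := by
      rwa [HeightOneSpectrum.valuation_of_algebraMap] at h3
    exact (v.intValuation_le_pow_iff_mem D 2).mp h4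
  have hD0 : v.valuation F (D : F) ≠ 0 := by
    intro h0
    rw [h0] at h2
    exact h2 zero_le'
  have ht0 : v.valuation F t ≠ 0 := (lt_trans zero_lt_one hlt).ne'
  rw [map_mul, map_pow] at h1
  obtain ⟨a, ha⟩ : ∃ a : ℤ, v.valuation F t = WithZero.exp a :=
    ⟨WithZero.log (v.valuation F t), (WithZero.exp_log ht0).symm⟩
  obtain ⟨b, hb⟩ : ∃ b : ℤ, v.valuation F (D : F) = WithZero.exp b :=
    ⟨WithZero.log (v.valuation F (D : F)), (WithZero.exp_log hD0).symm⟩
  rw [ha, hb, ← WithZero.exp_nsmul, ← WithZero.exp_add, ← WithZero.exp_zero,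
    WithZero.exp_le_exp] at h1
  rw [ha, ← WithZero.exp_zero, WithZero.exp_lt_exp] at hlt
  rw [hb, WithZero.exp_le_exp] at h2
  simp only [nsmul_eq_mul] at h1
  push_cast at h1 h2
  omega

theorem el_eq_sum (θ : L) (c : Fin (2 * 1 + 1) → F) :
    ∑ i, algebraMap F L (c i) * θ ^ (i : ℕ) = el θ (c 0) (c 1) (c 2) := by
  have h1 : ∑ i : Fin (2 * 1 + 1), algebraMap F L (c i) * θ ^ (i : ℕ) =
      algebraMap F L (c 0) * θ ^ 0 + algebraMap F L (c 1) * θ ^ 1 + algebraMap F L (c 2) * θ ^ 2 :=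
    Fin.sum_univ_three (fun i : Fin 3 => algebraMap F L (c i) * θ ^ (i : ℕ))
  rw [h1, el]
  ring

theorem cmul (p q : 𝓞 F) : ((p * q : 𝓞 F) : F) = (p : F) * (q : F) :=
  map_mul (algebraMap (𝓞 F) F) p q

theorem InR_smul (θ : L) (t : 𝓞 F) {x : L} (h : InR F θ x) :
    InR F θ (algebraMap F L (t : F) * x) := by
  obtain ⟨p, q, r, rfl⟩ := h
  refine ⟨t * p, t * q, t * r, ?_⟩
  rw [el_smul]
  simp only [map_mul]

/-- the ideal of the elements of `𝓞 F` which multiply a set of elements to `𝓞 F [θ]` -/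
def DD (F : Type) [Field F] [NumberField F] [Algebra F L] (θ : L) : Ideal (𝓞 F) where
  carrier := {d | ∀ z : 𝓞 L, InR F θ (algebraMap F L (d : F) * (z : L))}
  add_mem' := by
    intro x y hx hy z
    have := (hx z).add (hy z)
    rw [← add_mul, ← map_add, ← map_add] at this
    exact this
  zero_mem' := by
    intro z
    simpa using (InR.zero : InR F θ (0 : L))
  smul_mem' := by
    intro t x hx z
    have := InR_smul θ t (hx z)
    rw [← mul_assoc, ← map_mul, ← map_mul] at this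
    exact this

end

theorem con : Pool.Agent.P8H15.EK.S_CON := by
  intro F L _ _ _ _ _ a b θ h
  haveI := Pool.Agent.N31.PF.fin h
  refine ⟨DD F θ, ?_, ?_, ?_⟩
  · -- the discriminant is in the ideal
    intro h0
    apply dsc_ne' h
    rw [← Ideal.mem_bot, ← h0]
    intro z
    obtain ⟨c, hc⟩ := h.gen (z : L)
    have hi : ∀ i, IsIntegral ℤ (((4 * a ^ 3 + 27 * b ^ 2 : 𝓞 F) : F) * c i) := by
      intro i
      have h1 := coord_int h (z : L) z.2 c hc i
      have h2 : IsIntegral ℤ ((4 * a ^ 3 + 27 * b ^ 2 : 𝓞 F) : F) :=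
        (4 * a ^ 3 + 27 * b ^ 2 : 𝓞 F).2
      have h3 := h2.mul h1
      apply IsIntegral.of_pow (n := 2) two_pos
      have e : (((4 * a ^ 3 + 27 * b ^ 2 : 𝓞 F) : F) * c i) ^ 2 =
          ((4 * a ^ 3 + 27 * b ^ 2 : 𝓞 F) : F) *
            (c i ^ 2 * ((4 * a ^ 3 + 27 * b ^ 2 : 𝓞 F) : F)) := by ring
      rw [e]
      exact h3
    refine ⟨⟨_, hi 0⟩, ⟨_, hi 1⟩, ⟨_, hi 2⟩, ?_⟩
    rw [hc, el_eq_sum, el_smul]
    rfl
  · intro v hv
    by_contra hns
    -- all the coordinates of the elements of `𝓞 L` are integral at `v`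
    have hD : (4 * a ^ 3 + 27 * b ^ 2 : 𝓞 F) ∉ v.asIdeal ^ 2 := hns
    have one : ∀ z : 𝓞 L, ∃ d : 𝓞 F, d ∉ v.asIdeal ∧
        InR F θ (algebraMap F L (d : F) * (z : L)) := by
      intro z
      obtain ⟨c, hc⟩ := h.gen (z : L)
      have hi : ∀ i, ∃ (n : 𝓞 F) (d : v.asIdeal.primeCompl),
          c i * (algebraMap (𝓞 F) F d) = algebraMap (𝓞 F) F n := fun i =>
        v.exists_primeCompl_mul_eq_of_integer (c i)
          (val_le v hD (coord_int h (z : L) z.2 c hc i))
      choose n d hnd using hi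
      refine ⟨(d 0 : 𝓞 F) * d 1 * d 2, ?_, ?_⟩
      · exact (d 0 * d 1 * d 2).2
      · refine ⟨n 0 * d 1 * d 2, n 1 * d 0 * d 2, n 2 * d 0 * d 1, ?_⟩
        rw [hc, el_eq_sum, el_smul]
        have e0 := hnd 0
        have e1 := hnd 1
        have e2 := hnd 2
        simp only [map_mul]
        rw [← e0, ← e1, ← e2]
        refine congrArg₂ _ rfl rfl |>.trans ?_
        have a0 : algebraMap (𝓞 F) F (d 0 : 𝓞 F) * algebraMap (𝓞 F) F (d 1 : 𝓞 F) *
            algebraMap (𝓞 F) F (d 2 : 𝓞 F) * c 0 = c 0 * algebraMap (𝓞 F) F (d 0 : 𝓞 F) *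
            algebraMap (𝓞 F) F (d 1 : 𝓞 F) * algebraMap (𝓞 F) F (d 2 : 𝓞 F) := by ring
        have a1 : algebraMap (𝓞 F) F (d 0 : 𝓞 F) * algebraMap (𝓞 F) F (d 1 : 𝓞 F) *
            algebraMap (𝓞 F) F (d 2 : 𝓞 F) * c 1 = c 1 * algebraMap (𝓞 F) F (d 1 : 𝓞 F) *
            algebraMap (𝓞 F) F (d 0 : 𝓞 F) * algebraMap (𝓞 F) F (d 2 : 𝓞 F) := by ring
        have a2 : algebraMap (𝓞 F) F (d 0 : 𝓞 F) * algebraMap (𝓞 F) F (d 1 : 𝓞 F) *
            algebraMap (𝓞 F) F (d 2 : 𝓞 F) * c 2 = c 2 * algebraMap (𝓞 F) F (d 2 : 𝓞 F) *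
            algebraMap (𝓞 F) F (d 0 : 𝓞 F) * algebraMap (𝓞 F) F (d 1 : 𝓞 F) := by ring
        rw [a0, a1, a2]
    -- generators
    haveI : Module.Finite (𝓞 F) (𝓞 L) := inferInstance
    obtain ⟨S, hS⟩ := (Module.Finite.fg_top : (⊤ : Submodule (𝓞 F) (𝓞 L)).FG)
    choose d hd1 hd2 using one
    have hprod : (∏ z ∈ S, d z) ∈ DD F θ := by
      intro z
      have hz : z ∈ Submodule.span (𝓞 F) (S : Set (𝓞 L)) := by rw [hS]; trivial
      refine Submodule.span_induction (p := fun (z : 𝓞 L) _ =>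
        InR F θ (algebraMap F L ((∏ z ∈ S, d z : 𝓞 F) : F) * ((z : 𝓞 L) : L))) ?_ ?_ ?_ ?_ hz
      · intro x hx
        have : (∏ z ∈ S, d z) = (∏ z ∈ S.erase x, d z) * d x :=
          (Finset.prod_erase_mul S d hx).symm
        rw [this, cmul, map_mul, mul_assoc]
        exact InR_smul θ _ (hd2 x)
      · simpa using (InR.zero : InR F θ (0 : L))
      · intro x y _ _ hx hy
        have := hx.add hy
        rw [← mul_add] at this
        simpa using this
      · intro t x _ hx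
        have := InR_smul θ t hx
        have e : algebraMap F L ((∏ z ∈ S, d z : 𝓞 F) : F) * ((t • x : 𝓞 L) : L) =
            algebraMap F L (t : F) * (algebraMap F L ((∏ z ∈ S, d z : 𝓞 F) : F) * (x : L)) := by
          have e1 : ((t • x : 𝓞 L) : L) = algebraMap F L (t : F) * (x : L) := by
            rw [Algebra.smul_def, cmul]
            congr 1
          rw [e1]; ring
        rw [e]
        exact this
    have h1 := hv hprod
    have h2 : ∏ z ∈ S, d z ∉ v.asIdeal := by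
      intro h3
      have hp : v.asIdeal.IsPrime := v.isPrime
      obtain ⟨z, _, hz⟩ := (hp.prod_mem_iff).mp h3
      exact hd1 z hz
    exact h2 h1
  · intro d hd z
    exact hd z

end Pool.Agent.P8H59.EK
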