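import Pool.Agent.P8H15.EK.Stm

set_option autoImplicit false
set_option linter.all false

open Polynomial NumberField IsDedekindDomain
open scoped Classical

namespace Pool.Agent.P8H59.EK

/-- two factors of an element of `w ^ m` -/
theorem two_mul_mem {R : Type*} [CommRing R] [IsDedekindDomain R] (w : HeightOneSpectrum R)
    (m : ℕ) (x : R) (h : (x - 1) * (x + 1) ∈ w.asIdeal ^ m) :
    2 * (x - 1) ∈ w.asIdeal ^ m ∨ 2 * (x + 1) ∈ w.asIdeal ^ m := by
  rw [← w.intValuation_le_pow_iff_mem, ← w.intValuation_le_pow_iff_mem,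
    map_mul] 
  rw [← w.intValuation_le_pow_iff_mem, map_mul] at h
  rw [map_mul]
  have h2 : (2 : R) = (x + 1) - (x - 1) := by ring
  rcases le_total (w.intValuation (x - 1)) (w.intValuation (x + 1)) with h1 | h1
  · left
    have : w.intValuation 2 ≤ w.intValuation (x + 1) := by
      rw [h2]
      refine (Valuation.map_sub _ _ _).trans ?_
      exact max_le le_rfl h1
    calc _ ≤ w.intValuation (x + 1) * w.intValuation (x - 1) := by gcongr
      _ ≤ _ := by rw [mul_comm]; exact h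
  · right
    have : w.intValuation 2 ≤ w.intValuation (x - 1) := by
      rw [h2]
      refine (Valuation.map_sub _ _ _).trans ?_
      exact max_le h1 le_rfl
    calc _ ≤ w.intValuation (x - 1) * w.intValuation (x + 1) := by gcongr
      _ ≤ _ := h

open UniqueFactorizationMonoid in
theorem mem_of_forall {R : Type*} [CommRing R] [IsDedekindDomain R] (𝔫 : Ideal R) (h0 : 𝔫 ≠ ⊥)
    (z : R) (h : ∀ w : HeightOneSpectrum R, 𝔫 ≤ w.asIdeal →
      z ∈ w.asIdeal ^ ((normalizedFactors 𝔫).count w.asIdeal)) : z ∈ 𝔫 := by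
  have h1 : ∏ P ∈ (normalizedFactors 𝔫).toFinset, P ^ ((normalizedFactors 𝔫).count P) = 𝔫 := by
    rw [← Finset.prod_multiset_count]
    exact Ideal.prod_normalizedFactors_eq_self h0
  rw [← h1, ← IsDedekindDomain.inf_prime_pow_eq_prod]
  · rw [Submodule.mem_finsetInf]
    intro P hP
    have hP' : P ∈ normalizedFactors 𝔫 := Multiset.mem_toFinset.mp hP
    have hp := prime_of_normalized_factor P hP'
    have hle : 𝔫 ≤ P := Ideal.dvd_iff_le.mp (dvd_of_mem_normalizedFactors hP')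
    exact h ⟨P, Ideal.isPrime_of_prime hp, hp.ne_zero⟩ hle
  · intro P hP
    have hP' : P ∈ normalizedFactors 𝔫 := Multiset.mem_toFinset.mp hP
    exact prime_of_normalized_factor P hP'
  · intro P _ Q _ h
    exact h

open UniqueFactorizationMonoid in
theorem le_pow_count {R : Type*} [CommRing R] [IsDedekindDomain R] (𝔫 : Ideal R) (h0 : 𝔫 ≠ ⊥)
    (P : Ideal R) (hP : Prime P) : 𝔫 ≤ P ^ ((normalizedFactors 𝔫).count P) := by
  rw [← Ideal.dvd_iff_le]
  rw [pow_dvd_iff_le_emultiplicity]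
  rw [emultiplicity_eq_count_normalizedFactors hP.irreducible h0]
  simp

theorem card_tor {L : Type*} [Field L] [NumberField L] (𝔫 : Ideal (𝓞 L)) [Finite (𝓞 L ⧸ 𝔫)] :
    Nat.card {z : 𝓞 L ⧸ 𝔫 // 2 * z = 0} ≤ 2 ^ Module.finrank ℚ L := by
  let φ : (𝓞 L ⧸ 𝔫) →+ (𝓞 L ⧸ 𝔫) := AddMonoidHom.mulLeft 2
  have e1 : Nat.card {z : 𝓞 L ⧸ 𝔫 // 2 * z = 0} = Nat.card φ.ker := by
    refine Nat.card_congr (Equiv.subtypeEquivRight ?_)
    intro z
    simp [φ, AddMonoidHom.mem_ker]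
  have e2 : Nat.card φ.ker = φ.range.index := by
    have h1 := φ.range.card_mul_index
    have h2 : Nat.card φ.ker * Nat.card φ.range = Nat.card (𝓞 L ⧸ 𝔫) := by
      have := AddSubgroup.card_eq_card_quotient_mul_card_addSubgroup φ.ker
      rw [this, mul_comm]
      congr 1
      exact Nat.card_congr (QuotientAddGroup.quotientKerEquivRange φ).toEquiv.symm
    rw [← h2, mul_comm] at h1
    exact (Nat.eq_of_mul_eq_mul_right Nat.card_pos h1).symm
  rw [e1, e2]
  have e3 : Nat.card (𝓞 L ⧸ Ideal.span {(2 : 𝓞 L)}) = 2 ^ Module.finrank ℚ L := by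
    have h := Ideal.absNorm_span_singleton (2 : 𝓞 L)
    have h2 : Algebra.norm ℤ (2 : 𝓞 L) = 2 ^ Module.finrank ℚ L := by
      have := Algebra.norm_algebraMap (R := ℤ) (S := 𝓞 L) (2 : ℤ)
      rw [NumberField.RingOfIntegers.rank] at this
      simpa using this
    rw [h2] at h
    rw [Ideal.absNorm_apply, Submodule.cardQuot_apply] at h
    rw [h]
    simp [Int.natAbs_pow]
  rw [← e3]
  have hf : Finite (𝓞 L ⧸ Ideal.span {(2 : 𝓞 L)}) := by
    apply Nat.finite_of_card_ne_zero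
    rw [e3]; positivity
  let ψ : 𝓞 L →+ (𝓞 L ⧸ 𝔫) ⧸ φ.range :=
    (QuotientAddGroup.mk' φ.range).comp (Ideal.Quotient.mk 𝔫).toAddMonoidHom
  have hψ : ∀ x ∈ (Ideal.span {(2 : 𝓞 L)}).toAddSubgroup, ψ x = 0 := by
    intro x hx
    have hx' : x ∈ Ideal.span {(2 : 𝓞 L)} := hx
    rw [Ideal.mem_span_singleton] at hx'
    obtain ⟨y, rfl⟩ := hx'
    simp only [ψ, AddMonoidHom.comp_apply, QuotientAddGroup.mk'_apply]
    rw [QuotientAddGroup.eq_zero_iff]
    refine ⟨Ideal.Quotient.mk 𝔫 y, ?_⟩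
    have h2 : (Ideal.Quotient.mk 𝔫 2 : 𝓞 L ⧸ 𝔫) = 2 := map_ofNat _ 2
    simp [φ, h2]
  let χ : (𝓞 L ⧸ Ideal.span {(2 : 𝓞 L)}) → (𝓞 L ⧸ 𝔫) ⧸ φ.range :=
    QuotientAddGroup.lift (Ideal.span {(2 : 𝓞 L)}).toAddSubgroup ψ hψ
  have hχ : Function.Surjective χ := by
    intro q
    obtain ⟨a, rfl⟩ := QuotientAddGroup.mk_surjective q
    obtain ⟨x, rfl⟩ := Ideal.Quotient.mk_surjective a
    exact ⟨Ideal.Quotient.mk _ x, rfl⟩
  rw [AddSubgroup.index]
  exact Nat.card_le_card_of_surjective χ hχ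

open UniqueFactorizationMonoid in
theorem card_sq_one {L : Type*} [Field L] [NumberField L] (𝔫 : Ideal (𝓞 L)) (h0 : 𝔫 ≠ ⊥)
    (W : Finset (HeightOneSpectrum (𝓞 L)))
    (hW : ∀ w : HeightOneSpectrum (𝓞 L), 𝔫 ≤ w.asIdeal → w ∈ W) :
    Nat.card {u : 𝓞 L ⧸ 𝔫 // u ^ 2 = 1} ≤ 2 ^ (W.card + Module.finrank ℚ L) := by
  have hfin : Finite (𝓞 L ⧸ 𝔫) := Ideal.finiteQuotientOfFreeOfNeBot 𝔫 h0
  have : Fintype (𝓞 L ⧸ 𝔫) := Fintype.ofFinite _
  let r : (𝓞 L ⧸ 𝔫) → 𝓞 L := fun u => (Ideal.Quotient.mk_surjective u).choose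
  have hr : ∀ u, Ideal.Quotient.mk 𝔫 (r u) = u := fun u =>
    (Ideal.Quotient.mk_surjective u).choose_spec
  let S : (𝓞 L ⧸ 𝔫) → Finset (HeightOneSpectrum (𝓞 L)) := fun u =>
    W.filter (fun w => 2 * (r u - 1) ∈ w.asIdeal ^ ((normalizedFactors 𝔫).count w.asIdeal))
  let U : Finset (𝓞 L ⧸ 𝔫) := Finset.univ.filter (fun u => u ^ 2 = 1)
  have hU : Nat.card {u : 𝓞 L ⧸ 𝔫 // u ^ 2 = 1} = U.card := by
    rw [Nat.card_eq_fintype_card, Fintype.card_subtype]
  rw [hU]
  have key : ∀ u ∈ U, ∀ u' ∈ U, S u = S u' → 2 * (u - u') = 0 := by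
    intro u hu u' hu' h
    simp only [U, Finset.mem_filter, Finset.mem_univ, true_and] at hu hu'
    rw [← hr u, ← hr u', ← map_sub]
    have h2 : (2 : 𝓞 L ⧸ 𝔫) = Ideal.Quotient.mk 𝔫 2 := (map_ofNat _ 2).symm
    rw [h2, ← map_mul, Ideal.Quotient.eq_zero_iff_mem]
    apply mem_of_forall 𝔫 h0
    intro w hw
    have hwW := hW w hw
    have hp : Prime w.asIdeal := w.prime
    have hle := le_pow_count 𝔫 h0 w.asIdeal hp
    have mem : ∀ v : 𝓞 L ⧸ 𝔫, v ^ 2 = 1 → (r v - 1) * (r v + 1) ∈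
        w.asIdeal ^ ((normalizedFactors 𝔫).count w.asIdeal) := by
      intro v hv
      apply hle
      rw [← Ideal.Quotient.eq_zero_iff_mem]
      have : (r v - 1) * (r v + 1) = r v ^ 2 - 1 := by ring
      rw [this, map_sub, map_pow, hr, hv, map_one, sub_self]
    by_cases hin : w ∈ S u
    · have hin' : w ∈ S u' := h ▸ hin
      have a1 := (Finset.mem_filter.mp hin).2
      have a2 := (Finset.mem_filter.mp hin').2
      have := Ideal.sub_mem _ a1 a2
      convert this using 1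
      ring
    · have hin' : w ∉ S u' := h ▸ hin
      have a1 := (two_mul_mem w _ _ (mem u hu)).resolve_left
        (fun hh => hin (Finset.mem_filter.mpr ⟨hwW, hh⟩))
      have a2 := (two_mul_mem w _ _ (mem u' hu')).resolve_left
        (fun hh => hin' (Finset.mem_filter.mpr ⟨hwW, hh⟩))
      have := Ideal.sub_mem _ a1 a2
      convert this using 1
      ring
  have h1 : U.card ≤ 2 ^ Module.finrank ℚ L * (U.image S).card := by
    apply Finset.card_le_mul_card_image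
    intro b hb
    rw [Finset.mem_image] at hb
    obtain ⟨u₀, hu₀, rfl⟩ := hb
    refine le_trans ?_ (card_tor 𝔫)
    rw [Nat.card_eq_fintype_card, Fintype.card_subtype]
    refine Finset.card_le_card_of_injOn (fun u => u - u₀) ?_ ?_
    · intro u hu
      simp only [Finset.coe_filter, Set.mem_setOf_eq, Finset.mem_univ, true_and] at hu ⊢
      exact key u hu.1 u₀ hu₀ hu.2
    · intro u _ u' _ h
      simpa using h
  have h2 : (U.image S).card ≤ 2 ^ W.card := by
    rw [← Finset.card_powerset]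
    apply Finset.card_le_card
    intro t ht
    rw [Finset.mem_image] at ht
    obtain ⟨u, _, rfl⟩ := ht
    rw [Finset.mem_powerset]
    exact Finset.filter_subset _ _
  calc U.card ≤ 2 ^ Module.finrank ℚ L * (U.image S).card := h1
    _ ≤ 2 ^ Module.finrank ℚ L * 2 ^ W.card := by gcongr
    _ = _ := by rw [← pow_add, add_comm]

theorem grp {G : Type*} [CommGroup G] (x y u : G) (h : u ^ 2 = x⁻¹ * y) :
    x * y * (u * y⁻¹) ^ 2 = 1 := by
  rw [mul_pow, h]
  calc x * y * (x⁻¹ * y * y⁻¹ ^ 2) = (x * x⁻¹) * (y * y⁻¹) * (y * y⁻¹) := by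
        rw [sq]; ac_rfl
    _ = 1 := by simp

theorem sqi : Pool.Agent.P8H15.EK.S_SQI := by
  intro L _ _ 𝔫 h0 W hW s hs hinj
  have hfin : Finite (𝓞 L ⧸ 𝔫) := Ideal.finiteQuotientOfFreeOfNeBot 𝔫 h0
  refine le_trans ?_ (card_sq_one 𝔫 h0 W hW)
  have hunit : ∀ x ∈ s, IsUnit (Ideal.Quotient.mk 𝔫 x) := by
    intro x hx
    have h1 : (1 : 𝓞 L) ∈ Ideal.span {x} ⊔ 𝔫 := by rw [hs x hx]; trivial
    rw [Submodule.mem_sup] at h1
    obtain ⟨y, hy, z, hz, hyz⟩ := h1
    rw [Ideal.mem_span_singleton] at hy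
    obtain ⟨t, rfl⟩ := hy
    refine IsUnit.of_mul_eq_one (Ideal.Quotient.mk 𝔫 t) ?_
    rw [← map_mul]
    have : Ideal.Quotient.mk 𝔫 (x * t + z) = 1 := by rw [hyz, map_one]
    rw [map_add, Ideal.Quotient.eq_zero_iff_mem.mpr hz, add_zero] at this
    exact this
  let A := 𝓞 L ⧸ 𝔫
  let sq : Aˣ →* Aˣ := powMonoidHom 2
  let f : s → Aˣ ⧸ sq.range := fun x => QuotientGroup.mk (hunit x.1 x.2).unit
  have hf : Function.Injective f := by
    intro x y hxy
    simp only [f] at hxy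
    rw [QuotientGroup.eq] at hxy
    obtain ⟨u, hu⟩ := hxy
    apply Subtype.ext
    apply hinj x.1 x.2 y.1 y.2
    obtain ⟨c, hc⟩ := Ideal.Quotient.mk_surjective ((u * ((hunit y.1 y.2).unit)⁻¹ : Aˣ) : A)
    refine ⟨c, ?_⟩
    rw [← Ideal.Quotient.eq_zero_iff_mem, map_sub, map_mul, map_mul, map_pow, hc, map_one,
      sub_eq_zero]
    have hu' : u ^ 2 = ((hunit x.1 x.2).unit)⁻¹ * (hunit y.1 y.2).unit := hu
    have h3 := congrArg (fun t : Aˣ => (t : A)) (grp _ _ _ hu')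
    simp only [Units.val_mul, Units.val_pow_eq_pow_val, Units.val_one, IsUnit.unit_spec] at h3 ⊢
    exact h3
  have h1 : s.card = Nat.card s := by simp
  have h2 : Nat.card s ≤ Nat.card (Aˣ ⧸ sq.range) := Nat.card_le_card_of_injective f hf
  have h3 : Nat.card (Aˣ ⧸ sq.range) = Nat.card sq.ker := by
    have a1 := sq.range.card_mul_index
    have a2 : Nat.card sq.ker * Nat.card sq.range = Nat.card Aˣ := by
      have := Subgroup.card_eq_card_quotient_mul_card_subgroup sq.ker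
      rw [this, mul_comm]
      congr 1
      exact Nat.card_congr (QuotientGroup.quotientKerEquivRange sq).toEquiv.symm
    rw [← a2, mul_comm] at a1
    exact (Nat.eq_of_mul_eq_mul_right Nat.card_pos a1)
  have h4 : Nat.card sq.ker ≤ Nat.card {u : 𝓞 L ⧸ 𝔫 // u ^ 2 = 1} := by
    refine Nat.card_le_card_of_injective
      (fun u => ⟨((u : Aˣ) : A), ?_⟩) ?_
    · have : (u : Aˣ) ^ 2 = 1 := u.2
      have h5 := congrArg (fun t : Aˣ => (t : A)) this
      simpa using h5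
    · intro u v h
      have := congrArg Subtype.val h
      exact Subtype.ext (Units.ext this)
  rw [h1]
  exact (h2.trans h3.le).trans h4

end Pool.Agent.P8H59.EK
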